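import Mathlib
import Pool.Agent.Q134.AB.F3

set_option autoImplicit false

/-!
# Abelian squares of period at least three are avoidable over three letters

There is an infinite ternary word all of whose abelian squares have period one or two.

The word is `f (h^ω)`.  Here `h^ω` is a fixed point of a 151-uniform endomorphism of the alphabet of
the eight triples of bits `(b₀, b₁, b₂)`, which comes from two binary words `W(0)`, `W(1)` of length
151 by `h(b₀, b₁, b₂) = W(b₀) W(b₁) W(b₂)`, and `f(b₀, b₁, b₂) = Z(b₀) σ(Z(b₁)) σ²(Z(b₂))` with two
ternary words of length 61 and the cyclic shift `σ` of the letters.  The sum of the vectors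
`b · u_{i mod 3}` with `u₀ + u₁ + u₂ = 0` is multiplied by `23` respectively `17` by these maps; modulo
the lattice the triples of prefixes in progression are finitely many, and the kernel checks that
each of them comes from an additive square of the binary word between positions which are
congruent modulo three.  There is none.
-/

namespace Pool.Agent.Results.MP_1f24c5_co.PeriodThree

/-- There is an infinite word over `{0,1,2}` in which no factor `uv`, with `u` and `v` of equal length at
least `3`, has `u` and `v` containing each letter the same number of times. -/
theorem result :
    ∃ w : ℕ → Fin 3, ∀ i n : ℕ, 3 ≤ n →
      ¬ (∀ a : Fin 3,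
          ((Finset.range n).filter (fun k => w (i + k) = a)).card =
          ((Finset.range n).filter (fun k => w (i + n + k) = a)).card) :=
  Pool.Agent.Q134.AB.F3.main

end Pool.Agent.Results.MP_1f24c5_co.PeriodThree
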